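import Pool.Agent.Lib.MP_fa837f_gt.P2.Iface

/-!
Row KW: approximation of the kernels by exponential sums (Weierstrass).
-/

set_option autoImplicit false

open Set Filter Topology Polynomial

namespace Pool.Agent.Lib.MP_fa837f_gt.P2.H13

/-- The kernel. -/
noncomputable def kk (c e δ x : ℝ) : ℝ := Real.exp (-(c / (1 + δ) * (x + e) ^ (1 + δ)))

/-- `g (e^{-x}) = e^x k(x)`. -/
noncomputable def gv (c e δ v : ℝ) : ℝ :=
  if v ≤ 0 then 0 else Real.exp (-Real.log v) * kk c e δ (-Real.log v)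

/-- `G (e^{-x}) = (c (x + e)^δ - 1) e^{2x} k(x)`. -/
noncomputable def Gv (c e δ v : ℝ) : ℝ :=
  if v ≤ 0 then 0 else (c * (-Real.log v + e) ^ δ - 1) *
    (Real.exp (-Real.log v) ^ 2 * kk c e δ (-Real.log v))

variable {c e δ : ℝ}

theorem rpow_le_exp {y : ℝ} (hy : 0 < y) (hδ : 0 < δ) (hδ1 : δ ≤ 1) : y ^ δ ≤ Real.exp y := by
  rw [Real.rpow_def_of_pos hy]
  apply Real.exp_le_exp.2
  have h1 : Real.log y ≤ y - 1 := Real.log_le_sub_one_of_pos hy
  nlinarith

/-- `e^{3x} k(x) → 0`. -/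
theorem lim_kk (hc : 0 < c) (hδ : 0 < δ) :
    Tendsto (fun x => Real.exp (3 * x) * kk c e δ x) atTop (𝓝 0) := by
  have h1 : Tendsto (fun x : ℝ => x + e) atTop atTop := tendsto_atTop_add_const_right _ _ tendsto_id
  have h2 : Tendsto (fun x : ℝ => c / (1 + δ) * (x + e) ^ δ) atTop atTop :=
    Tendsto.const_mul_atTop (by positivity) ((tendsto_rpow_atTop hδ).comp h1)
  have h3 : Tendsto (fun x : ℝ => Real.exp (-(x + 4 * e))) atTop (𝓝 0) :=
    Real.tendsto_exp_neg_atTop_nhds_zero.comp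
      (tendsto_atTop_add_const_right _ _ tendsto_id)
  refine squeeze_zero' (Eventually.of_forall fun x => by unfold kk; positivity) ?_ h3
  filter_upwards [h2.eventually_ge_atTop 4, h1.eventually_gt_atTop 0] with x hx hx0
  unfold kk
  rw [← Real.exp_add]
  apply Real.exp_le_exp.2
  rw [Real.rpow_add hx0, Real.rpow_one]
  nlinarith

theorem lim_g (hc : 0 < c) (hδ : 0 < δ) :
    Tendsto (fun x => Real.exp x * kk c e δ x) atTop (𝓝 0) := by
  refine squeeze_zero' (Eventually.of_forall fun x => by unfold kk; positivity) ?_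
    (lim_kk (c := c) (e := e) hc hδ)
  filter_upwards [eventually_ge_atTop (0 : ℝ)] with x hx
  apply mul_le_mul_of_nonneg_right
  · exact Real.exp_le_exp.2 (by linarith)
  · unfold kk; positivity

theorem lim_G (hc : 0 < c) (hδ : 0 < δ) (hδ1 : δ ≤ 1) :
    Tendsto (fun x => (c * (x + e) ^ δ - 1) * (Real.exp x ^ 2 * kk c e δ x)) atTop (𝓝 0) := by
  have h1 : Tendsto (fun x : ℝ => x + e) atTop atTop := tendsto_atTop_add_const_right _ _ tendsto_id
  have h4 := (lim_kk (c := c) (e := e) hc hδ).const_mul (c * Real.exp e + 1)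
  rw [mul_zero] at h4
  rw [tendsto_zero_iff_abs_tendsto_zero]
  refine squeeze_zero' (Eventually.of_forall fun x => abs_nonneg _) ?_ h4
  filter_upwards [eventually_ge_atTop (0 : ℝ), h1.eventually_gt_atTop 0] with x hx hx0
  have hk : 0 < kk c e δ x := by unfold kk; positivity
  have h5 : (x + e) ^ δ ≤ Real.exp x * Real.exp e := by
    rw [← Real.exp_add]; exact rpow_le_exp hx0 hδ hδ1
  have h6 : 0 < (x + e) ^ δ := Real.rpow_pos_of_pos hx0 _
  have h7 : 1 ≤ Real.exp x := Real.one_le_exp hx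
  have h8 : Real.exp (3 * x) = Real.exp x ^ 3 := by
    rw [← Real.exp_nat_mul]; norm_num
  show |(c * (x + e) ^ δ - 1) * (Real.exp x ^ 2 * kk c e δ x)| ≤ _
  rw [abs_mul, abs_of_pos (by positivity : 0 < Real.exp x ^ 2 * kk c e δ x), h8]
  have h9 : |c * (x + e) ^ δ - 1| ≤ (c * Real.exp e + 1) * Real.exp x := by
    rw [abs_le]
    constructor
    · nlinarith [mul_pos hc h6, Real.exp_pos e, Real.exp_pos x,
        mul_pos (mul_pos hc (Real.exp_pos e)) (Real.exp_pos x)]
    · have := mul_le_mul_of_nonneg_left h5 hc.le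
      nlinarith [Real.exp_pos x]
  calc |c * (x + e) ^ δ - 1| * (Real.exp x ^ 2 * kk c e δ x)
      ≤ ((c * Real.exp e + 1) * Real.exp x) * (Real.exp x ^ 2 * kk c e δ x) :=
        mul_le_mul_of_nonneg_right h9 (by positivity)
    _ = (c * Real.exp e + 1) * (Real.exp x ^ 3 * kk c e δ x) := by ring

theorem lim_log : Tendsto (fun v : ℝ => -Real.log v) (𝓝[>] 0) atTop :=
  tendsto_neg_atBot_atTop.comp Real.tendsto_log_nhdsGT_zero

theorem cont_of (f : ℝ → ℝ) (F : ℝ → ℝ) (hf : ∀ v, f v = if v ≤ 0 then 0 else F (-Real.log v))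
    (hF : ∀ x, 0 ≤ x → ContinuousAt F x) (h0 : Tendsto F atTop (𝓝 0)) :
    ContinuousOn f (Icc 0 1) := by
  intro v hv
  rcases hv.1.eq_or_lt with h | h
  · subst h
    have h1 : ContinuousWithinAt f (Ioi 0) 0 := by
      unfold ContinuousWithinAt
      rw [hf 0, if_pos le_rfl]
      refine (h0.comp lim_log).congr' ?_
      filter_upwards [self_mem_nhdsWithin] with v hv
      rw [hf v, if_neg (not_le.2 hv)]; rfl
    exact (continuousWithinAt_Ioi_iff_Ici.1 h1).mono Icc_subset_Ici_self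
  · apply ContinuousAt.continuousWithinAt
    have h1 : ContinuousAt (fun v : ℝ => F (-Real.log v)) v := by
      have h2 : ContinuousAt (fun v : ℝ => -Real.log v) v :=
        (Real.continuousAt_log h.ne').neg
      have h3 : 0 ≤ -Real.log v := by
        have := Real.log_nonpos hv.1 hv.2
        linarith
      exact ContinuousAt.comp (f := fun v : ℝ => -Real.log v) (g := F) (hF _ h3) h2
    refine h1.congr ?_
    filter_upwards [lt_mem_nhds h] with w hw
    rw [hf w, if_neg (not_le.2 hw)]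

theorem cont_kk (hδ : 0 < δ) {x : ℝ} : ContinuousAt (kk c e δ) x := by
  unfold kk
  have h1 : ContinuousAt (fun x : ℝ => (x + e) ^ (1 + δ)) x :=
    (continuousAt_id.add continuousAt_const).rpow_const (Or.inr (by linarith))
  exact Real.continuous_exp.continuousAt.comp (continuousAt_const.mul h1).neg

theorem cont_g (hc : 0 < c) (he : 0 < e) (hδ : 0 < δ) : ContinuousOn (gv c e δ) (Icc 0 1) := by
  refine cont_of _ (fun x => Real.exp x * kk c e δ x) (fun v => rfl) (fun x hx => ?_) (lim_g hc hδ)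
  exact Real.continuous_exp.continuousAt.mul (cont_kk hδ)

theorem cont_G (hc : 0 < c) (he : 0 < e) (hδ : 0 < δ) (hδ1 : δ ≤ 1) :
    ContinuousOn (Gv c e δ) (Icc 0 1) := by
  refine cont_of _ (fun x => (c * (x + e) ^ δ - 1) * (Real.exp x ^ 2 * kk c e δ x))
    (fun v => rfl) (fun x hx => ?_) (lim_G hc hδ hδ1)
  have h1 : ContinuousAt (fun x : ℝ => (x + e) ^ δ) x :=
    (continuousAt_id.add continuousAt_const).rpow_const (Or.inr (by linarith))
  exact ((continuousAt_const.mul h1).sub continuousAt_const).mul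
    ((Real.continuous_exp.continuousAt.pow 2).mul (cont_kk hδ))

theorem deriv_g (he : 0 < e) (hδ : 0 < δ) {v : ℝ} (hv : 0 < v) (hv1 : v < 1) :
    HasDerivAt (gv c e δ) (Gv c e δ v) v := by
  have hl : HasDerivAt (fun v : ℝ => -Real.log v) (-v⁻¹) v := (Real.hasDerivAt_log hv.ne').neg
  have hx : 0 < -Real.log v + e := by
    have := Real.log_neg hv hv1
    linarith
  have h1 : HasDerivAt (fun v : ℝ => (-Real.log v + e) ^ (1 + δ))
      (-v⁻¹ * (1 + δ) * (-Real.log v + e) ^ (1 + δ - 1)) v :=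
    (hl.add_const e).rpow_const (Or.inl hx.ne')
  have h2 : HasDerivAt (fun v : ℝ => kk c e δ (-Real.log v))
      (kk c e δ (-Real.log v) * (-(c / (1 + δ) *
        (-v⁻¹ * (1 + δ) * (-Real.log v + e) ^ (1 + δ - 1))))) v := by
    unfold kk
    exact ((h1.const_mul (c / (1 + δ))).neg).exp
  have h3 : HasDerivAt (fun v : ℝ => Real.exp (-Real.log v) * kk c e δ (-Real.log v))
      (Gv c e δ v) v := by
    refine (hl.exp.mul h2).congr_deriv ?_
    rw [Gv, if_neg (not_le.2 hv)]
    have h4 : Real.exp (-Real.log v) = v⁻¹ := by rw [Real.exp_neg, Real.exp_log hv]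
    have h5 : (1 : ℝ) + δ ≠ 0 := by linarith
    rw [h4, show (1 : ℝ) + δ - 1 = δ by ring]
    field_simp
    ring
  refine h3.congr_of_eventuallyEq ?_
  filter_upwards [lt_mem_nhds hv] with w hw
  rw [gv, if_neg (not_le.2 hw)]

theorem exists_primitive (q : ℝ[X]) : ∃ Q : ℝ[X], derivative Q = q ∧ Q.eval 0 = 0 := by
  induction q using Polynomial.induction_on' with
  | add p q hp hq =>
    obtain ⟨P, h1, h2⟩ := hp
    obtain ⟨Q, h3, h4⟩ := hq
    exact ⟨P + Q, by rw [derivative_add, h1, h3], by rw [eval_add, h2, h4, add_zero]⟩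
  | monomial n a =>
    refine ⟨monomial (n + 1) (a / (n + 1)), ?_, ?_⟩
    · rw [derivative_monomial]
      congr 1
      push_cast
      field_simp
    · rw [eval_monomial]; simp

/-- A polynomial `Q` close to `g` with `Q'` close to `G`. -/
theorem exists_Q (hc : 0 < c) (he : 0 < e) (hδ : 0 < δ) (hδ1 : δ ≤ 1) {ε : ℝ} (hε : 0 < ε) :
    ∃ Q : ℝ[X], ∀ v ∈ Icc (0 : ℝ) 1, |Q.eval v - gv c e δ v| ≤ ε ∧
      |(derivative Q).eval v - Gv c e δ v| ≤ ε := by
  obtain ⟨q, hq⟩ := exists_polynomial_near_of_continuousOn 0 1 _ (cont_G hc he hδ hδ1) ε hε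
  obtain ⟨Q, hQ, hQ0⟩ := exists_primitive q
  refine ⟨Q, fun v hv => ⟨?_, by rw [hQ]; exact (hq v hv).le⟩⟩
  rcases hv.1.eq_or_lt with h | h
  · rw [← h, hQ0, gv, if_pos le_rfl]; simpa using hε.le
  · have hcont : ContinuousOn (fun v => Q.eval v - gv c e δ v) (Icc 0 v) :=
      (Q.continuous.continuousOn).sub ((cont_g hc he hδ).mono (Icc_subset_Icc_right hv.2))
    have hder : ∀ w ∈ Ioo 0 v, HasDerivAt (fun v => Q.eval v - gv c e δ v)
        (q.eval w - Gv c e δ w) w := fun w hw => by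
      have h1 := Q.hasDerivAt w
      rw [hQ] at h1
      exact h1.sub (deriv_g he hδ hw.1 (hw.2.trans_le hv.2))
    obtain ⟨w, hw, hs⟩ := exists_hasDerivAt_eq_slope _ _ h hcont hder
    have h2 := hq w ⟨hw.1.le, hw.2.le.trans hv.2⟩
    have h00 : gv c e δ 0 = 0 := by rw [gv, if_pos le_rfl]
    rw [hs, hQ0, h00, sub_zero, sub_zero, sub_zero, abs_div, abs_of_pos h,
      div_lt_iff₀ h] at h2
    have h3 : ε * v ≤ ε := by nlinarith [hv.2]
    exact h2.le.trans h3

/-- The sums in terms of the polynomial. -/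
theorem sums (Q : ℝ[X]) (M : ℕ) (hM : Q.natDegree + 1 ≤ M) (x : ℝ) :
    (∑ j : Fin M, Q.coeff j * Real.exp (-((((j : ℕ) : ℝ) + 1) * x))) =
        Real.exp (-x) * Q.eval (Real.exp (-x)) ∧
    (∑ j : Fin M, Q.coeff j * ((((j : ℕ) : ℝ) + 1) * Real.exp (-((((j : ℕ) : ℝ) + 1) * x)))) =
        Real.exp (-x) * (Q.eval (Real.exp (-x)) +
          Real.exp (-x) * (derivative Q).eval (Real.exp (-x))) := by
  set v := Real.exp (-x) with hv
  have hpow : ∀ j : ℕ, Real.exp (-(((j : ℝ) + 1) * x)) = v ^ (j + 1) := fun j => by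
    rw [hv, ← Real.exp_nat_mul]; congr 1; push_cast; ring
  have h1 : Q.eval v = ∑ j ∈ Finset.range M, Q.coeff j * v ^ j := eval_eq_sum_range' (by omega) v
  have h2 : (Q * X).eval v = ∑ j ∈ Finset.range (M + 1), (Q * X).coeff j * v ^ j :=
    eval_eq_sum_range' (by
      have := natDegree_mul_le (p := Q) (q := (X : ℝ[X]))
      rw [natDegree_X] at this
      omega) v
  have h3 : Q.eval v + v * (derivative Q).eval v = (derivative (Q * X)).eval v := by
    rw [derivative_mul, derivative_X]; simp; ring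
  have h4 : (derivative (Q * X)).eval v =
      ∑ j ∈ Finset.range M, Q.coeff j * (((j : ℝ) + 1) * v ^ j) := by
    have h5 : (derivative (Q * X)).natDegree < M := by
      have h6 := natDegree_derivative_le (Q * X)
      have := natDegree_mul_le (p := Q) (q := (X : ℝ[X]))
      rw [natDegree_X] at this
      omega
    rw [eval_eq_sum_range' h5 v]
    apply Finset.sum_congr rfl
    intro j _
    rw [coeff_derivative, coeff_mul_X]
    ring
  constructor
  · rw [h1, Finset.mul_sum, Fin.sum_univ_eq_sum_range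
      (fun j : ℕ => Q.coeff j * Real.exp (-(((j : ℝ) + 1) * x))) M]
    apply Finset.sum_congr rfl
    intro j _
    rw [hpow]; ring
  · rw [h3, h4, Finset.mul_sum, Fin.sum_univ_eq_sum_range
      (fun j : ℕ => Q.coeff j * (((j : ℝ) + 1) * Real.exp (-(((j : ℝ) + 1) * x)))) M]
    apply Finset.sum_congr rfl
    intro j _
    rw [hpow]; ring

theorem KW_st : KwStatement := by
  intro n c e δ hc he hδ hδ4
  have hδ1 : δ ≤ 1 := by linarith
  have hQ : ∀ (N : ℕ) (i : Fin n), ∃ Q : ℝ[X], ∀ v ∈ Icc (0 : ℝ) 1,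
      |Q.eval v - gv (c i) (e i) δ v| ≤ 1 / ((N : ℝ) + 1) ∧
      |(derivative Q).eval v - Gv (c i) (e i) δ v| ≤ 1 / ((N : ℝ) + 1) := fun N i =>
    exists_Q (hc i) (he i) hδ hδ1 (by positivity)
  choose Q hQ using hQ
  have hB1 : ∀ i, ∃ b : ℝ, ∀ v ∈ Icc (0 : ℝ) 1, |gv (c i) (e i) δ v| ≤ b := fun i =>
    isCompact_Icc.exists_bound_of_continuousOn (cont_g (hc i) (he i) hδ)
  have hB2 : ∀ i, ∃ b : ℝ, ∀ v ∈ Icc (0 : ℝ) 1, |Gv (c i) (e i) δ v| ≤ b := fun i =>
    isCompact_Icc.exists_bound_of_continuousOn (cont_G (hc i) (he i) hδ hδ1)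
  choose b1 hb1 using hB1
  choose b2 hb2 using hB2
  set M : ℕ → ℕ := fun N => ∑ i, ((Q N i).natDegree + 1) with hM
  have hMle : ∀ N i, (Q N i).natDegree + 1 ≤ M N := fun N i =>
    Finset.single_le_sum (f := fun i => (Q N i).natDegree + 1) (fun _ _ => Nat.zero_le _)
      (Finset.mem_univ i)
  have h0i : (0 : ℝ) ∈ Icc (0 : ℝ) 1 := ⟨le_rfl, zero_le_one⟩
  have hb10 : ∀ i, 0 ≤ b1 i := fun i => (abs_nonneg _).trans (hb1 i 0 h0i)
  have hb20 : ∀ i, 0 ≤ b2 i := fun i => (abs_nonneg _).trans (hb2 i 0 h0i)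
  have hvI : ∀ x : ℝ, 0 ≤ x → Real.exp (-x) ∈ Icc (0 : ℝ) 1 := fun x hx =>
    ⟨(Real.exp_pos _).le, Real.exp_le_one_iff.2 (by linarith)⟩
  have hN1 : ∀ N : ℕ, 1 / ((N : ℝ) + 1) ≤ 1 := fun N => by
    rw [div_le_one (by positivity)]; linarith [Nat.cast_nonneg (α := ℝ) N]
  have hlim : Tendsto (fun N : ℕ => 1 / ((N : ℝ) + 1)) atTop (𝓝 0) :=
    tendsto_one_div_add_atTop_nhds_zero_nat
  refine ⟨M, fun N i j => (Q N i).coeff j, ∑ i, (b1 i + b2 i + 2), fun N i x hx => ?_,
    fun i x hx => ?_⟩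
  · have hv := hvI x hx
    have hp := Real.exp_pos (-x)
    obtain ⟨s1, s2⟩ := sums (Q N i) (M N) (hMle N i) x
    rw [s1, s2, abs_mul, abs_mul, abs_of_pos hp]
    have hle : b1 i + b2 i + 2 ≤ ∑ i, (b1 i + b2 i + 2) :=
      Finset.single_le_sum (f := fun i => b1 i + b2 i + 2)
        (fun i _ => by linarith [hb10 i, hb20 i]) (Finset.mem_univ i)
    obtain ⟨q1, q2⟩ := hQ N i _ hv
    have a1 : |(Q N i).eval (Real.exp (-x))| ≤ b1 i + 1 := by
      have := abs_sub_abs_le_abs_sub ((Q N i).eval (Real.exp (-x)))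
        (gv (c i) (e i) δ (Real.exp (-x)))
      linarith [hb1 i _ hv, hN1 N]
    have a2 : |(derivative (Q N i)).eval (Real.exp (-x))| ≤ b2 i + 1 := by
      have := abs_sub_abs_le_abs_sub ((derivative (Q N i)).eval (Real.exp (-x)))
        (Gv (c i) (e i) δ (Real.exp (-x)))
      linarith [hb2 i _ hv, hN1 N]
    constructor
    · rw [mul_comm]
      apply mul_le_mul_of_nonneg_right _ hp.le
      linarith [hb20 i]
    · rw [mul_comm]
      apply mul_le_mul_of_nonneg_right _ hp.le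
      refine (abs_add_le _ _).trans ?_
      rw [abs_mul, abs_of_pos hp]
      have : Real.exp (-x) * |(derivative (Q N i)).eval (Real.exp (-x))| ≤ b2 i + 1 := by
        nlinarith [hv.2, abs_nonneg ((derivative (Q N i)).eval (Real.exp (-x))), hb20 i]
      linarith
  · have hv := hvI x hx
    have hp := Real.exp_pos (-x)
    have t1 : Tendsto (fun N => (Q N i).eval (Real.exp (-x))) atTop
        (𝓝 (gv (c i) (e i) δ (Real.exp (-x)))) := by
      rw [tendsto_iff_norm_sub_tendsto_zero]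
      exact squeeze_zero (fun N => norm_nonneg _) (fun N => (hQ N i _ hv).1) hlim
    have t2 : Tendsto (fun N => (derivative (Q N i)).eval (Real.exp (-x))) atTop
        (𝓝 (Gv (c i) (e i) δ (Real.exp (-x)))) := by
      rw [tendsto_iff_norm_sub_tendsto_zero]
      exact squeeze_zero (fun N => norm_nonneg _) (fun N => (hQ N i _ hv).2) hlim
    have hee : Real.exp (-x) * Real.exp x = 1 := by rw [← Real.exp_add]; simp
    have e1 : Real.exp (-x) * gv (c i) (e i) δ (Real.exp (-x)) =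
        Real.exp (-(c i / (1 + δ) * (x + e i) ^ (1 + δ))) := by
      rw [gv, if_neg (not_le.2 hp), Real.log_exp, neg_neg, ← mul_assoc, hee, one_mul, kk]
    have e2 : Real.exp (-x) * (gv (c i) (e i) δ (Real.exp (-x)) +
        Real.exp (-x) * Gv (c i) (e i) δ (Real.exp (-x))) =
        c i * (x + e i) ^ δ * Real.exp (-(c i / (1 + δ) * (x + e i) ^ (1 + δ))) := by
      rw [mul_add, e1, Gv, if_neg (not_le.2 hp), Real.log_exp, neg_neg, kk]
      have h7 : Real.exp (-x) * (Real.exp (-x) * ((c i * (x + e i) ^ δ - 1) * (Real.exp x ^ 2 *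
          Real.exp (-(c i / (1 + δ) * (x + e i) ^ (1 + δ)))))) =
          (Real.exp (-x) * Real.exp x) ^ 2 * ((c i * (x + e i) ^ δ - 1) *
            Real.exp (-(c i / (1 + δ) * (x + e i) ^ (1 + δ)))) := by ring
      rw [h7, hee]
      ring
    constructor
    · rw [← e1]
      refine (t1.const_mul (Real.exp (-x))).congr fun N => ?_
      exact (sums (Q N i) (M N) (hMle N i) x).1.symm
    · rw [← e2]
      refine ((t1.add (t2.const_mul (Real.exp (-x)))).const_mul (Real.exp (-x))).congr fun N => ?_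
      exact (sums (Q N i) (M N) (hMle N i) x).2.symm

end Pool.Agent.Lib.MP_fa837f_gt.P2.H13
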